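import Pool.Agent.helper9.HQ.Spec

/-!
# Project hq (MP_d9e35a_co), row LF: sets from graphs
-/

set_option autoImplicit false

open scoped Classical

namespace Pool.Agent.helper9.HQ

open Finset
open Pool.Agent.helper65.HC (V IsEig IsTop lam)

/-- strings and sets -/
noncomputable def LF_e (d : ℕ) : V d ≃ Finset (Fin d) where
  toFun x := univ.filter (fun i => x i = true)
  invFun p := fun i => decide (i ∈ p)
  left_inv x := by funext i; simp
  right_inv p := by ext i; simp

/-- adding or removing an element -/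
noncomputable def LF_fl {d : ℕ} (i : Fin d) (p : Finset (Fin d)) : Finset (Fin d) :=
  if i ∈ p then p.erase i else insert i p

theorem LF_flip {d : ℕ} (i : Fin d) (x : V d) :
    LF_e d (Pool.Agent.helper65.HC.flip i x) = LF_fl i (LF_e d x) := by
  ext j
  unfold LF_fl Pool.Agent.helper65.HC.flip LF_e
  by_cases hx : x i = true
  · rw [if_pos (by simpa using hx)]
    by_cases hj : j = i
    · subst hj
      simp [hx]
    · simp [hj]
  · rw [if_neg (by simpa using hx)]
    by_cases hj : j = i
    · subst hj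
      simp [hx]
    · simp [hj]

theorem LF_par {d : ℕ} (i : Fin d) (p : Finset (Fin d)) :
    (LF_fl i p).card = p.card + 1 ∨ (LF_fl i p).card + 1 = p.card := by
  unfold LF_fl
  by_cases h : i ∈ p
  · rw [if_pos h]
    exact Or.inr (card_erase_add_one h)
  · rw [if_neg h]
    exact Or.inl (card_insert_of_notMem h)

/-- the singletons -/
noncomputable def LF_a {d : ℕ} (y : Fin d → ℝ) (p : Finset (Fin d)) : ℝ :=
  ∑ i, if p = {i} then y i else 0

/-- the empty set and the pairs -/
noncomputable def LF_b {d : ℕ} (G : Fam d) (y : Fin d → ℝ) (p : Finset (Fin d)) : ℝ :=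
  (if p = ∅ then ∑ i, y i else 0) + if p ∈ G then ∑ i ∈ p, y i else 0

theorem LF_a_single {d : ℕ} (y : Fin d → ℝ) (i : Fin d) : LF_a y {i} = y i := by
  unfold LF_a
  rw [Finset.sum_eq_single i]
  · rw [if_pos rfl]
  · intro j _ hj
    rw [if_neg]
    intro h
    exact hj (Finset.singleton_injective h).symm
  · intro h
    exact absurd (mem_univ i) h

theorem LF_a_zero {d : ℕ} (y : Fin d → ℝ) {p : Finset (Fin d)} (hp : p.card ≠ 1) :
    LF_a y p = 0 := by
  unfold LF_a
  apply Finset.sum_eq_zero
  intro i _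
  rw [if_neg]
  rintro rfl
  exact hp (card_singleton i)

theorem LF_a_sum {d : ℕ} (y : Fin d → ℝ) (K : Finset (Fin d) → ℝ) :
    ∑ p, LF_a y p * K p = ∑ i, y i * K {i} := by
  unfold LF_a
  have h1 : ∀ p : Finset (Fin d), (∑ i, if p = {i} then y i else 0) * K p =
      ∑ i, if p = {i} then y i * K {i} else 0 := by
    intro p
    rw [Finset.sum_mul]
    apply Finset.sum_congr rfl
    intro i _
    by_cases h : p = {i}
    · rw [if_pos h, if_pos h, h]
    · rw [if_neg h, if_neg h, zero_mul]
  rw [Finset.sum_congr rfl (fun p _ => h1 p), Finset.sum_comm]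
  apply Finset.sum_congr rfl
  intro i _
  rw [Finset.sum_ite_eq']
  rw [if_pos (mem_univ _)]

theorem LF_b_sum {d : ℕ} (G : Fam d) (y : Fin d → ℝ) (K : Finset (Fin d) → ℝ) :
    ∑ p, LF_b G y p * K p = (∑ i, y i) * K ∅ + ∑ p ∈ G, (∑ i ∈ p, y i) * K p := by
  unfold LF_b
  have h1 : ∀ p : Finset (Fin d), ((if p = ∅ then ∑ i, y i else 0) +
      if p ∈ G then ∑ i ∈ p, y i else 0) * K p =
      (if p = ∅ then (∑ i, y i) * K ∅ else 0) + if p ∈ G then (∑ i ∈ p, y i) * K p else 0 := by
    intro p
    rw [add_mul]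
    congr 1
    · by_cases h : p = ∅
      · rw [if_pos h, if_pos h, h]
      · rw [if_neg h, if_neg h, zero_mul]
    · by_cases h : p ∈ G
      · rw [if_pos h, if_pos h]
      · rw [if_neg h, if_neg h, zero_mul]
  rw [Finset.sum_congr rfl (fun p _ => h1 p), Finset.sum_add_distrib, Finset.sum_ite_eq',
    if_pos (mem_univ _), Finset.sum_ite_mem, univ_inter]

theorem LF_b_zero {d : ℕ} {G : Fam d} (y : Fin d → ℝ) (hG : ∀ p ∈ G, p.card = 2)
    {p : Finset (Fin d)} (h0 : p.card ≠ 0) (h2 : p.card ≠ 2) : LF_b G y p = 0 := by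
  unfold LF_b
  rw [if_neg (fun h => h0 (by rw [h, card_empty])), if_neg (fun h => h2 (hG p h)), add_zero]

theorem LF_b_empty {d : ℕ} {G : Fam d} (y : Fin d → ℝ) (hG : ∀ p ∈ G, p.card = 2) :
    LF_b G y ∅ = ∑ i, y i := by
  unfold LF_b
  rw [if_pos rfl, if_neg, add_zero]
  intro h
  have := hG _ h
  rw [card_empty] at this
  omega

theorem LF_b_mem {d : ℕ} {G : Fam d} (y : Fin d → ℝ) (hG : ∀ p ∈ G, p.card = 2)
    {p : Finset (Fin d)} (hp : p ∈ G) : LF_b G y p = ∑ i ∈ p, y i := by
  unfold LF_b
  rw [if_neg, if_pos hp, zero_add]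
  intro h
  have := hG _ hp
  rw [h, card_empty] at this
  omega

theorem LF_nb_empty {d : ℕ} (y : Fin d → ℝ) : ∑ i, LF_a y (LF_fl i ∅) = ∑ i, y i := by
  apply Finset.sum_congr rfl
  intro i _
  have h : LF_fl i (∅ : Finset (Fin d)) = {i} := by
    unfold LF_fl
    rw [if_neg (notMem_empty i)]
    rfl
  rw [h, LF_a_single]

theorem LF_nb_pair {d : ℕ} (y : Fin d → ℝ) {p : Finset (Fin d)} (hp : p.card = 2) :
    ∑ i, LF_a y (LF_fl i p) = ∑ i ∈ p, y i := by
  have h1 : ∑ i ∈ p, LF_a y (LF_fl i p) = ∑ i, LF_a y (LF_fl i p) := by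
    apply Finset.sum_subset (subset_univ _)
    intro i _ hi
    apply LF_a_zero
    unfold LF_fl
    rw [if_neg hi, card_insert_of_notMem hi, hp]
    omega
  rw [← h1]
  obtain ⟨a, b, hab, rfl⟩ := card_eq_two.1 hp
  rw [Finset.sum_pair hab, Finset.sum_pair hab]
  have e1 : LF_fl a {a, b} = {b} := by
    unfold LF_fl
    rw [if_pos (by simp)]
    ext j
    simp only [mem_erase, mem_insert, mem_singleton]
    constructor
    · rintro ⟨h2, h3 | h3⟩
      · exact absurd h3 h2
      · exact h3
    · intro h2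
      rw [h2]
      exact ⟨hab.symm, Or.inr rfl⟩
  have e2 : LF_fl b {a, b} = {a} := by
    unfold LF_fl
    rw [if_pos (by simp)]
    ext j
    simp only [mem_erase, mem_insert, mem_singleton]
    constructor
    · rintro ⟨h2, h3 | h3⟩
      · exact h3
      · exact absurd h3 h2
    · intro h2
      rw [h2]
      exact ⟨hab, Or.inl rfl⟩
  rw [e1, e2, LF_a_single, LF_a_single, add_comm]

/-- the bilinear form -/
noncomputable def LF_B {d : ℕ} (a b : Finset (Fin d) → ℝ) : ℝ :=
  ∑ x : V d, a (LF_e d x) * ∑ i, b (LF_e d (Pool.Agent.helper65.HC.flip i x))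

theorem LF_B_symm {d : ℕ} (a b : Finset (Fin d) → ℝ) : LF_B a b = LF_B b a := by
  unfold LF_B
  simp only [Finset.mul_sum]
  rw [Finset.sum_comm]
  conv_rhs => rw [Finset.sum_comm]
  apply Finset.sum_congr rfl
  intro i _
  rw [← Pool.Agent.helper65.HC.sum_flip i]
  apply Finset.sum_congr rfl
  intro x _
  rw [Pool.Agent.helper65.HC.flip_flip, mul_comm]

theorem LF_B_eq {d : ℕ} (a b : Finset (Fin d) → ℝ) :
    LF_B a b = ∑ p, a p * ∑ i, b (LF_fl i p) := by
  unfold LF_B
  rw [← Equiv.sum_comp (LF_e d) (fun p => a p * ∑ i, b (LF_fl i p))]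
  apply Finset.sum_congr rfl
  intro x _
  congr 1
  apply Finset.sum_congr rfl
  intro i _
  rw [LF_flip]

theorem LF_B_add {d : ℕ} (a b : Finset (Fin d) → ℝ) (r : ℝ) :
    LF_B (fun p => a p + r * b p) (fun p => a p + r * b p) =
      LF_B a a + 2 * r * LF_B b a + r ^ 2 * LF_B b b := by
  have h : LF_B (fun p => a p + r * b p) (fun p => a p + r * b p) =
      LF_B a a + r * LF_B a b + r * LF_B b a + r ^ 2 * LF_B b b := by
    unfold LF_B
    simp only [Finset.mul_sum]
    rw [← Finset.sum_add_distrib, ← Finset.sum_add_distrib, ← Finset.sum_add_distrib]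
    apply Finset.sum_congr rfl
    intro x _
    rw [← Finset.sum_add_distrib, ← Finset.sum_add_distrib, ← Finset.sum_add_distrib]
    apply Finset.sum_congr rfl
    intro i _
    ring
  rw [h, LF_B_symm a b]
  ring

theorem LF_key {d : ℕ} {G : Fam d} (y : Fin d → ℝ) (hG : ∀ p ∈ G, p.card = 2)
    {U : Finset (V d)} {t : ℝ} (hU : IsTop U t) (h0 : (LF_e d).symm ∅ ∈ U)
    (h1 : ∀ i, (LF_e d).symm {i} ∈ U) (h2 : ∀ p ∈ G, (LF_e d).symm p ∈ U) (r : ℝ) :
    2 * r * gf G y ≤ t * (∑ i, y i ^ 2 + r ^ 2 * gf G y) := by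
  have hR := Pool.Agent.helper65.HC.rayleigh hU
    (fun x => LF_a y (LF_e d x) + r * LF_b G y (LF_e d x)) (by
      intro x hx
      have e1 : LF_a y (LF_e d x) = 0 := by
        by_contra hne
        have h3 : (LF_e d x).card = 1 := by
          by_contra h4
          exact hne (LF_a_zero y h4)
        obtain ⟨i, hi⟩ := card_eq_one.1 h3
        have h4 := h1 i
        rw [← hi, Equiv.symm_apply_apply] at h4
        exact hx h4
      have e2 : LF_b G y (LF_e d x) = 0 := by
        unfold LF_b
        rw [if_neg, if_neg, add_zero]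
        · intro h3
          have h4 := h2 _ h3
          rw [Equiv.symm_apply_apply] at h4
          exact hx h4
        · intro h3
          rw [← h3, Equiv.symm_apply_apply] at h0
          exact hx h0
      show LF_a y (LF_e d x) + r * LF_b G y (LF_e d x) = 0
      rw [e1, e2, mul_zero, add_zero])
  have hB := LF_B_add (LF_a y) (LF_b G y) r
  have haa : LF_B (LF_a y) (LF_a y) = 0 := by
    rw [LF_B_eq]
    apply Finset.sum_eq_zero
    intro p _
    by_cases hp : p.card = 1
    · have : ∑ i, LF_a y (LF_fl i p) = 0 := by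
        apply Finset.sum_eq_zero
        intro i _
        apply LF_a_zero
        rcases LF_par i p with h | h <;> omega
      rw [this, mul_zero]
    · rw [LF_a_zero y hp, zero_mul]
  have hbb : LF_B (LF_b G y) (LF_b G y) = 0 := by
    rw [LF_B_eq]
    apply Finset.sum_eq_zero
    intro p _
    by_cases hp : p.card = 0 ∨ p.card = 2
    · have : ∑ i, LF_b G y (LF_fl i p) = 0 := by
        apply Finset.sum_eq_zero
        intro i _
        apply LF_b_zero y hG
        · rcases LF_par i p with h | h <;> omega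
        · rcases LF_par i p with h | h <;> omega
      rw [this, mul_zero]
    · push Not at hp
      rw [LF_b_zero y hG hp.1 hp.2, zero_mul]
  have hba : LF_B (LF_b G y) (LF_a y) = gf G y := by
    rw [LF_B_eq, LF_b_sum, LF_nb_empty]
    unfold gf
    rw [sq]
    congr 1
    apply Finset.sum_congr rfl
    intro p hp
    rw [LF_nb_pair y (hG p hp), sq]
  have hN : ∑ x : V d, (LF_a y (LF_e d x) + r * LF_b G y (LF_e d x)) ^ 2 =
      ∑ i, y i ^ 2 + r ^ 2 * gf G y := by
    rw [Equiv.sum_comp (LF_e d) (fun p => (LF_a y p + r * LF_b G y p) ^ 2)]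
    have h3 : ∀ p : Finset (Fin d), (LF_a y p + r * LF_b G y p) ^ 2 =
        LF_a y p * LF_a y p + r ^ 2 * (LF_b G y p * LF_b G y p) := by
      intro p
      have h4 : LF_a y p * LF_b G y p = 0 := by
        by_cases hp : p.card = 1
        · rw [LF_b_zero y hG (by omega) (by omega), mul_zero]
        · rw [LF_a_zero y hp, zero_mul]
      linear_combination 2 * r * h4
    rw [Finset.sum_congr rfl (fun p _ => h3 p), Finset.sum_add_distrib, LF_a_sum,
      ← Finset.mul_sum, LF_b_sum, LF_b_empty y hG]
    congr 1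
    · apply Finset.sum_congr rfl
      intro i _
      rw [LF_a_single, sq]
    · congr 1
      unfold gf
      rw [sq]
      congr 1
      apply Finset.sum_congr rfl
      intro p hp
      rw [LF_b_mem y hG hp, sq]
  rw [haa, hbb, hba] at hB
  have hB' : ∑ x : V d, (LF_a y (LF_e d x) + r * LF_b G y (LF_e d x)) *
      ∑ i, (LF_a y (LF_e d (Pool.Agent.helper65.HC.flip i x)) +
        r * LF_b G y (LF_e d (Pool.Agent.helper65.HC.flip i x))) = 2 * r * gf G y := by
    have h3 : LF_B (fun p => LF_a y p + r * LF_b G y p)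
      (fun p => LF_a y p + r * LF_b G y p) = 2 * r * gf G y := by
      rw [hB]
      ring
    exact h3
  rw [hN] at hR
  rw [← hB']
  exact hR

theorem LF : LF_stmt := by
  intro d m G y hG hy hm1 hm2
  -- the family
  set A0 : Fam d := powersetCard 0 univ ∪ (powersetCard 1 univ ∪ G) with hA0
  set A2 : Fam d := powersetCard 0 univ ∪ (powersetCard 1 univ ∪ powersetCard 2 univ) with hA2
  have hsub : A0 ⊆ A2 := by
    apply union_subset_union (Subset.refl _)
    apply union_subset_union (Subset.refl _)
    intro p hp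
    exact mem_powersetCard.2 ⟨subset_univ _, hG p hp⟩
  have hc0 : A0.card ≤ m := by
    have h1 := card_union_le (powersetCard 0 (univ : Finset (Fin d)))
      (powersetCard 1 (univ : Finset (Fin d)) ∪ G)
    have h2 := card_union_le (powersetCard 1 (univ : Finset (Fin d))) G
    rw [card_powersetCard, card_univ, Fintype.card_fin] at h1 h2
    rw [Nat.choose_zero_right] at h1
    rw [Nat.choose_one_right] at h2
    refine le_trans h1 ?_
    omega
  have hc2 : A2.card = 1 + d + d.choose 2 := by
    rw [hA2, card_union_of_disjoint, card_union_of_disjoint, card_powersetCard,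
      card_powersetCard, card_powersetCard, card_univ, Fintype.card_fin,
      Nat.choose_zero_right, Nat.choose_one_right]
    · ring
    · rw [disjoint_left]
      intro p h1 h2
      rw [mem_powersetCard] at h1 h2
      omega
    · rw [disjoint_left]
      intro p h1 h2
      rw [mem_union] at h2
      rw [mem_powersetCard] at h1
      rcases h2 with h2 | h2
      · rw [mem_powersetCard] at h2
        omega
      · rw [mem_powersetCard] at h2
        omega
  obtain ⟨A, hA0A, _, hAm⟩ := exists_subsuperset_card_eq hsub hc0 (by rw [hc2]; exact hm2)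
  refine ⟨A.image (LF_e d).symm, ?_, ?_⟩
  · rw [card_image_of_injective _ (LF_e d).symm.injective, hAm]
  · intro t ht
    have hmem : ∀ p ∈ A0, (LF_e d).symm p ∈ A.image (LF_e d).symm := fun p hp =>
      mem_image_of_mem _ (hA0A hp)
    have key := LF_key y hG ht
      (hmem ∅ (by
        rw [hA0, mem_union, mem_powersetCard]
        exact Or.inl ⟨subset_univ _, card_empty⟩))
      (fun i => hmem {i} (by
        rw [hA0, mem_union, mem_union, mem_powersetCard]
        exact Or.inr (Or.inl (mem_powersetCard.2 ⟨subset_univ _, card_singleton i⟩))))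
      (fun p hp => hmem p (by
        rw [hA0, mem_union, mem_union]
        exact Or.inr (Or.inr hp)))
    have h0 := key 0
    have ht0 : 0 ≤ t := by
      by_contra hneg
      push Not at hneg
      have h1 : t * (∑ i, y i ^ 2 + 0 ^ 2 * gf G y) < 0 := by
        apply mul_neg_of_neg_of_pos hneg
        rw [zero_pow two_ne_zero, zero_mul, add_zero]
        exact hy
      rw [mul_zero, zero_mul] at h0
      linarith
    refine ⟨ht0, ?_⟩
    rcases eq_or_lt_of_le ht0 with h1 | h1
    · have h2 := key 1
      rw [← h1] at h2 ⊢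
      rw [zero_mul] at h2
      rw [zero_pow two_ne_zero, zero_mul]
      linarith
    · have h2 := key (1 / t)
      have h3 : 2 * (1 / t) * gf G y * t ≤ t * (∑ i, y i ^ 2 + (1 / t) ^ 2 * gf G y) * t :=
        mul_le_mul_of_nonneg_right h2 ht0
      have h4 : 2 * (1 / t) * gf G y * t = 2 * gf G y := by
        field_simp
      have h5 : t * (∑ i, y i ^ 2 + (1 / t) ^ 2 * gf G y) * t =
          t ^ 2 * ∑ i, y i ^ 2 + gf G y := by
        field_simp
      rw [h4, h5] at h3
      linarith

end Pool.Agent.helper9.HQ
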